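import Mathlib

set_option autoImplicit false

open Set MeasureTheory Filter Topology

namespace Pool.Agent.H.MP_41af23_an

abbrev V := {A : Set ℂ // MeasurableSet A} → ℝ

noncomputable def tri (a b c : ℂ) : V := fun A => volume.real (A.1 ∩ convexHull ℝ {a, b, c})

def K {n : ℕ} (z : Fin n → ℂ) : Set V :=
  {μ | μ ∈ Submodule.span ℝ {m | ∃ i j k, i < j ∧ j < k ∧ m = tri (z i) (z j) (z k)} ∧ 0 ≤ μ}

def Face (C : Set V) : Type := {F : Set V // F.Nonempty ∧ Convex ℝ F ∧ IsExtreme ℝ C F}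

instance (C : Set V) : PartialOrder (Face C) := Subtype.partialOrder _

def D (a b c : ℂ) : ℝ := (b.re - a.re) * (c.im - a.im) - (b.im - a.im) * (c.re - a.re)

lemma coat {m : ℕ} (hm : 2 ≤ m) {C : Set V} (W : Submodule ℝ V) (φ : Fin m → V →ₗ[ℝ] ℝ)
    (hC : ∀ μ, μ ∈ C ↔ μ ∈ W ∧ ∀ k, 0 ≤ φ k μ)
    (hw : ∀ k, ∃ μ ∈ W, φ k μ = 0 ∧ ∀ j ≠ k, 0 < φ j μ) :
    ∃ T : Face C, IsTop T ∧ {G | G ⋖ T}.ncard = m := by
  have h0 : (0 : V) ∈ C := (hC 0).2 ⟨W.zero_mem, fun k => by simp⟩
  have hc : ∀ {x y : V} {a b : ℝ}, x ∈ W → y ∈ W → (∀ k, 0 ≤ a * φ k x + b * φ k y) →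
      a • x + b • y ∈ C := fun hx hy h =>
    (hC _).2 ⟨W.add_mem (W.smul_mem _ hx) (W.smul_mem _ hy), fun k => by simpa using h k⟩
  have hcv : Convex ℝ C := fun x hx y hy a b ha hb _ => hc ((hC x).1 hx).1 ((hC y).1 hy).1 fun k =>
    add_nonneg (mul_nonneg ha (((hC x).1 hx).2 k)) (mul_nonneg hb (((hC y).1 hy).2 k))
  let T : Face C := ⟨C, ⟨0, h0⟩, hcv, IsExtreme.rfl⟩
  have hT : IsTop T := fun G => G.2.2.2.subset
  let F : Fin m → Face C := fun k => ⟨{μ ∈ C | φ k μ = 0}, ⟨0, h0, by simp⟩,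
    hcv.inter ((convex_singleton (0 : ℝ)).linear_preimage (φ k)), sep_subset _ _, by
      rintro x hx y hy _ ⟨-, hz⟩ ⟨a, b, ha, hb, -, rfl⟩
      refine ⟨hx, le_antisymm ?_ (((hC x).1 hx).2 k)⟩
      simp only [map_add, map_smul, smul_eq_mul] at hz
      nlinarith [mul_nonneg hb.le (((hC y).1 hy).2 k)]⟩
  have hint : ∀ G : Face C, ∀ μ ∈ G.1, (∀ k, 0 < φ k μ) → T ≤ G := fun G μ hμ h ν hν => by
    have : ∀ᶠ ε : ℝ in 𝓝 0, ∀ k, 0 < (1 + ε) * φ k μ + -ε * φ k ν := eventually_all.2 fun k =>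
      continuous_const.continuousAt.eventually_lt (by fun_prop) (by simpa using h k)
    obtain ⟨ε, a1, a2⟩ := ((this.filter_mono (nhdsWithin_le_nhds (s := Ioi 0))).and
      self_mem_nhdsWithin).exists
    have a3 : 0 < ε := a2
    refine G.2.2.2.left_mem_of_mem_openSegment hν (hc ((hC μ).1 (G.2.2.2.subset hμ)).1
      ((hC ν).1 hν).1 fun k => (a1 k).le) hμ ⟨ε / (1 + ε), 1 / (1 + ε), by positivity,
        by positivity, by field_simp; ring, ?_⟩
    match_scalars <;> field_simp <;> ring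
  have hsub : ∀ G : Face C, G < T → ∃ k, G ≤ F k := fun G hG => by
    by_contra h
    have : ∀ k, ∃ μ ∈ G.1, 0 < φ k μ := fun k => by
      obtain ⟨μ, a1, a2⟩ := not_subset.1 fun a => h ⟨k, a⟩
      have a3 := G.2.2.2.subset a1
      exact ⟨μ, a1, (((hC μ).1 a3).2 k).lt_of_ne' fun a => a2 ⟨a3, a⟩⟩
    choose μ a1 a2 using this
    have a3 : (0 : ℝ) < m := by exact_mod_cast (by omega : 0 < m)
    refine hG.not_ge (hint G _ (G.2.2.1.sum_mem (t := Finset.univ) (w := fun _ => (m : ℝ)⁻¹)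
      (fun _ _ => by positivity) (by simp; field_simp) fun k _ => a1 k) fun k => ?_)
    simp only [map_sum, map_smul, smul_eq_mul]
    exact Finset.sum_pos' (fun j _ => mul_nonneg (by positivity)
      (((hC _).1 (G.2.2.2.subset (a1 j))).2 k)) ⟨k, Finset.mem_univ _, mul_pos (by positivity) (a2 k)⟩
  choose w w1 w2 w3 using hw
  have wF : ∀ k, w k ∈ (F k).1 := fun k => ⟨(hC _).2 ⟨w1 k, fun j => by
    rcases eq_or_ne j k with rfl | a
    exacts [(w2 j).ge, (w3 k j a).le]⟩, w2 k⟩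
  have hinj : ∀ k j, F k ≤ F j → j = k := fun k j h => by
    by_contra a
    exact (w3 k j a).ne' (h (wF k)).2
  have hlt : ∀ k, F k < T := fun k => (hT _).lt_of_ne fun a => by
    have : Nontrivial (Fin m) := Fin.nontrivial_iff_two_le.2 hm
    obtain ⟨j, hj⟩ := exists_ne k
    exact hj (hinj j k (a ▸ hT _)).symm
  refine ⟨T, hT, ?_⟩
  have : {G | G ⋖ T} = range F := by
    ext G
    constructor
    · intro h
      obtain ⟨k, hk⟩ := hsub G h.lt
      exact ⟨k, (h.eq_or_eq hk (hT _)).resolve_right (hlt k).ne⟩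
    · rintro ⟨k, rfl⟩
      refine ⟨hlt k, fun G h1 h2 => ?_⟩
      obtain ⟨j, hj⟩ := hsub G h2
      rw [hinj k j (h1.le.trans hj)] at hj
      exact h1.not_ge hj
  rw [this, ncard_range_of_injective fun k j h => (hinj k j h.le).symm]
  simp

lemma iso {α β : Type} [PartialOrder α] [PartialOrder β] (e : α ≃o β) {S : α} {T : β}
    (hS : IsTop S) (hT : IsTop T) : {G | G ⋖ T}.ncard = {G | G ⋖ S}.ncard := by
  have h : e S = T := le_antisymm (hT _) (e.symm_apply_le.1 (hS _))
  rw [← ncard_image_of_injective _ e.injective]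
  congr 1
  ext G
  obtain ⟨G, rfl⟩ := e.surjective G
  simp [← h, apply_covBy_apply_iff]

lemma mem_tri {a b c : ℂ} (h : 0 < D a b c) (x : ℂ) :
    x ∈ convexHull ℝ ({a, b, c} : Set ℂ) ↔ 0 ≤ D a b x ∧ 0 ≤ D b c x ∧ D a c x ≤ 0 := by
  constructor
  · intro hx
    refine convexHull_min (t := {x | 0 ≤ D a b x ∧ 0 ≤ D b c x ∧ D a c x ≤ 0}) ?_ ?_ hx
    · rintro _ (rfl | rfl | rfl) <;> simp only [D, mem_ofPred_eq] at h ⊢ <;>
        refine ⟨?_, ?_, ?_⟩ <;> linarith
    · intro x hx y hy s t hs ht hst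
      have k : ∀ p q, D p q (s • x + t • y) = s * D p q x + t * D p q y := fun p q => by
        obtain rfl : t = 1 - s := by linarith
        simp [D]
        ring
      simp only [mem_ofPred_eq, k]
      refine ⟨?_, ?_, ?_⟩
      · nlinarith [hx.1, hy.1]
      · nlinarith [hx.2.1, hy.2.1]
      · nlinarith [hx.2.2, hy.2.2]
  · rintro ⟨h1, h2, h3⟩
    have := (convex_convexHull ℝ ({a, b, c} : Set ℂ)).sum_mem (t := Finset.univ)
      (w := ![D b c x / D a b c, -D a c x / D a b c, D a b x / D a b c]) (z := ![a, b, c])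
      (fun i _ => by
        have := neg_nonneg.2 h3
        fin_cases i <;> simp only [Fin.reduceFinMk, Matrix.cons_val] <;> positivity)
      (by simp only [Fin.sum_univ_three, Matrix.cons_val]; field_simp; simp only [D]; ring)
      fun i _ => subset_convexHull _ _ (by fin_cases i <;> simp)
    convert this using 1
    simp only [Fin.sum_univ_three, Matrix.cons_val]
    apply Complex.ext <;> simp <;> field_simp <;> simp only [D] <;> ring

lemma ae_ne {a b : ℂ} (h : a ≠ b) : ∀ᵐ x, D a b x ≠ 0 := by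
  have := Measure.addHaar_affineSubspace volume (AffineSubspace.mk' a (ℝ ∙ (b - a))) (fun h' => by
    have h1 : a + Complex.I * (b - a) ∈ AffineSubspace.mk' a (ℝ ∙ (b - a)) := h' ▸ trivial
    rw [AffineSubspace.mem_mk', Submodule.mem_span_singleton] at h1
    obtain ⟨t, ht⟩ := h1
    rw [vsub_eq_sub, add_sub_cancel_left, Complex.real_smul] at ht
    simpa using congrArg Complex.im (mul_right_cancel₀ (sub_ne_zero.2 h.symm) ht))
  refine measure_mono_null (fun x hx => ?_) this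
  have h1 : D a b x = 0 := by simpa using hx
  have h2 : (b - a).re ^ 2 + (b - a).im ^ 2 ≠ 0 := fun h2 => h.symm (sub_eq_zero.1 (Complex.ext
    (by simp only [Complex.zero_re]; nlinarith) (by simp only [Complex.zero_im]; nlinarith)))
  refine AffineSubspace.mem_mk'.2 (Submodule.mem_span_singleton.2
    ⟨((x - a).re * (b - a).re + (x - a).im * (b - a).im) / ((b - a).re ^ 2 + (b - a).im ^ 2), ?_⟩)
  simp only [D, Complex.sub_re, Complex.sub_im] at h1 h2
  apply Complex.ext <;> simp only [Complex.smul_re, Complex.smul_im, vsub_eq_sub, Complex.sub_re,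
    Complex.sub_im, smul_eq_mul] <;> field_simp
  · linear_combination (b.im - a.im) * h1
  · linear_combination -(b.re - a.re) * h1

lemma geo {ι : Type} [Fintype ι] {m : ℕ} (hm : 2 ≤ m) (Δ : ι → Set ℂ) (hΔ : ∀ t, IsCompact (Δ t))
    (v : Fin m → ι → Bool) (p : Fin m → ℂ) (h1 : ∀ k, ∀ᶠ x in 𝓝 (p k), ∀ t, x ∈ Δ t ↔ v k t)
    (h2 : ∀ᵐ x, (∀ t, x ∉ Δ t) ∨ ∃ k, ∀ t, x ∈ Δ t ↔ v k t) (w : Fin m → ι → ℤ)
    (hw : ∀ k j, if j = k then ∑ t, (if v j t then w k t else 0) = 0
      else 0 < ∑ t, (if v j t then w k t else 0)) {C : Set V}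
    (hC : C = {μ | μ ∈ Submodule.span ℝ (range fun t => fun A : {A : Set ℂ // MeasurableSet A} =>
      volume.real (A.1 ∩ Δ t)) ∧ 0 ≤ μ}) : ∃ T : Face C, IsTop T ∧ {G | G ⋖ T}.ncard = m := by
  classical
  choose r r0 hr using fun k => Metric.eventually_nhds_iff_ball.1 (h1 k)
  let A : Fin m → {A : Set ℂ // MeasurableSet A} := fun k =>
    ⟨Metric.ball (p k) (r k), measurableSet_ball⟩
  have hA : ∀ k, 0 < volume.real (A k).1 := fun k => ENNReal.toReal_pos
    (Metric.measure_ball_pos _ _ (r0 k)).ne' measure_ball_lt_top.ne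
  have hv : ∀ (c : ι → ℝ) k, (∑ t, c t • fun A : {A : Set ℂ // MeasurableSet A} =>
      volume.real (A.1 ∩ Δ t)) (A k) = volume.real (A k).1 * ∑ t, if v k t then c t else 0 := by
    intro c k
    rw [Finset.sum_apply, Finset.mul_sum]
    refine Finset.sum_congr rfl fun t _ => ?_
    split_ifs with h
    · rw [Pi.smul_apply, inter_eq_left.2 fun x hx => (hr k x hx t).2 h, smul_eq_mul, mul_comm]
    · rw [Pi.smul_apply, (eq_empty_iff_forall_notMem (s := _ ∩ Δ t)).2
        fun x hx => h ((hr k x hx.1 t).1 hx.2)]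
      simp
  refine coat hm (Submodule.span ℝ (range fun t => fun A : {A : Set ℂ // MeasurableSet A} =>
    volume.real (A.1 ∩ Δ t))) (fun k => LinearMap.proj (A k)) (fun μ => ?_) fun k => ?_
  · rw [hC]
    refine and_congr_right fun hμ => ⟨fun h k => h _, fun h B => ?_⟩
    obtain ⟨c, rfl⟩ := (Submodule.mem_span_range_iff_exists_fun _).1 hμ
    have h3 : ∀ t, volume.real (B.1 ∩ Δ t) = ∫ x in B.1, (Δ t).indicator 1 x := fun t => by
      rw [integral_indicator_one (hΔ t).measurableSet, measureReal_restrict_apply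
        (hΔ t).measurableSet, inter_comm]
    simp only [Finset.sum_apply, Pi.smul_apply, h3, smul_eq_mul, ← integral_const_mul]
    have hi : ∀ t, Integrable (fun x => (Δ t).indicator (1 : ℂ → ℝ) x) (volume.restrict B.1) :=
      fun t => ((integrable_indicator_iff (hΔ t).measurableSet).2
        (integrableOn_const (hΔ t).measure_lt_top.ne)).integrableOn
    rw [← integral_finsetSum _ fun t _ => (hi t).const_mul _]
    refine integral_nonneg_of_ae (ae_restrict_of_ae (h2.mono fun x hx => ?_))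
    rcases hx with hx | ⟨k, hx⟩
    · simp [hx]
    · have := h k
      rw [LinearMap.proj_apply, hv] at this
      simpa [indicator_apply, hx] using nonneg_of_mul_nonneg_right this (hA k)
  · refine ⟨_, (Submodule.mem_span_range_iff_exists_fun _).2 ⟨fun t => w k t, rfl⟩, ?_,
      fun j hj => ?_⟩
    · have := hw k k
      rw [if_pos rfl] at this
      rw [LinearMap.proj_apply, hv]
      exact mul_eq_zero_of_right _ (by exact_mod_cast this)
    · have := hw k j
      rw [if_neg hj] at this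
      rw [LinearMap.proj_apply, hv]
      exact mul_pos (hA j) (by exact_mod_cast this)

end Pool.Agent.H.MP_41af23_an
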