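import Pool.Agent.H.MP_41af23_an.A

set_option autoImplicit false

open Set MeasureTheory Filter Topology

namespace Pool.Agent.H.MP_41af23_an

abbrev Pat := ℕ × Bool × ℕ × ℕ × Bool × ℕ × ℕ × Bool × ℕ

def Dz (a b c : ℤ × ℤ) : ℤ := (b.1 - a.1) * (c.2 - a.2) - (b.2 - a.2) * (c.1 - a.1)

def cz (a : ℤ × ℤ) : ℂ := ⟨a.1, a.2⟩

lemma D_cz (a b c : ℤ × ℤ) : D (cz a) (cz b) (cz c) = Dz a b c := by simp [D, cz, Dz]

def I (e : ℕ) : Fin 6 := [0, 0, 0, 0, 0, 1, 1, 1, 1, 2, 2, 2, 3, 3, 4].getD e 0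

def J (e : ℕ) : Fin 6 := [1, 2, 3, 4, 5, 2, 3, 4, 5, 3, 4, 5, 4, 5, 5].getD e 0

def Te (t : Fin 20) : ℕ × ℕ × ℕ := [(0, 5, 1), (0, 6, 2), (0, 7, 3), (0, 8, 4), (1, 9, 2), (1,
  10, 3), (1, 11, 4), (2, 12, 3), (2, 13, 4), (3, 14, 4), (5, 9, 6), (5, 10, 7), (5, 11, 8),
  (6, 12, 7), (6, 13, 8), (7, 14, 8), (9, 12, 10), (9, 13, 11), (10, 14, 11), (12, 14,
  13)].getD t (0, 0, 0)

def mem (n : ℕ) (t : Fin 20) : Bool :=
  n.testBit (Te t).1 && n.testBit (Te t).2.1 && !n.testBit (Te t).2.2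

lemma Te_ok : ∀ t, (Te t).1 < 15 ∧ (Te t).2.1 < 15 ∧ (Te t).2.2 < 15 ∧
    I (Te t).2.1 = J (Te t).1 ∧ I (Te t).2.2 = I (Te t).1 ∧ J (Te t).2.2 = J (Te t).2.1 ∧
    I (Te t).1 < J (Te t).1 ∧ J (Te t).1 < J (Te t).2.1 := by decide

lemma Te_surj : ∀ i j k : Fin 6, i < j → j < k →
    ∃ t, I (Te t).1 = i ∧ J (Te t).1 = j ∧ J (Te t).2.1 = k := by decide +kernel

open Classical in
noncomputable def cd (z : Fin 6 → ℂ) (x : ℂ) : ℕ :=
  Nat.ofBits fun e : Fin 15 => decide (0 < D (z (I e)) (z (J e)) x)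

lemma cd_bit (z : Fin 6 → ℂ) (x : ℂ) {e : ℕ} (h : e < 15) :
    (cd z x).testBit e = true ↔ 0 < D (z (I e)) (z (J e)) x := by
  rw [cd, Nat.testBit_ofBits_lt _ _ h]
  simp

def Tr (z : Fin 6 → ℂ) (t : Fin 20) : Set ℂ :=
  convexHull ℝ {z (I (Te t).1), z (J (Te t).1), z (J (Te t).2.1)}

lemma mem_cd {z : Fin 6 → ℂ} {x : ℂ} (hx : ∀ e < 15, D (z (I e)) (z (J e)) x ≠ 0) (t : Fin 20)
    (h : 0 < D (z (I (Te t).1)) (z (J (Te t).1)) (z (J (Te t).2.1))) :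
    x ∈ Tr z t ↔ mem (cd z x) t := by
  obtain ⟨a1, a2, a3, a4, a5, a6, -⟩ := Te_ok t
  have b1 := hx _ a1
  have b2 := hx _ a2
  have c1 := cd_bit z x a1
  have c2 := cd_bit z x a2
  have c3 := cd_bit z x a3
  rw [a4] at b2 c2
  rw [a5, a6] at c3
  rw [Tr, mem_tri h, mem, Bool.and_eq_true, Bool.and_eq_true, Bool.not_eq_true',
    ← Bool.not_eq_true, c1, c2, c3, not_lt, and_assoc, b1.symm.le_iff_lt, b2.symm.le_iff_lt]

def sg (s : Bool) : ℤ := if s then 1 else -1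

def F (P : Fin 6 → ℤ × ℤ) (b : Pat) (q : ℤ × ℤ) : ℤ :=
  b.2.2.1 * (sg b.2.1 * Dz (P (I b.1)) (P (J b.1)) q) +
  b.2.2.2.2.2.1 * (sg b.2.2.2.2.1 * Dz (P (I b.2.2.2.1)) (P (J b.2.2.2.1)) q) +
  b.2.2.2.2.2.2.2.2 * (sg b.2.2.2.2.2.2.2.1 * Dz (P (I b.2.2.2.2.2.2.1)) (P (J b.2.2.2.2.2.2.1)) q)

def hit (n : ℕ) (b : Pat) : Bool := n.testBit b.1 == b.2.1 && n.testBit b.2.2.2.1 == b.2.2.2.2.1 &&
  n.testBit b.2.2.2.2.2.2.1 == b.2.2.2.2.2.2.2.1

def Val (P : Fin 6 → ℤ × ℤ) (b : Pat) : Prop := b.1 < 15 ∧ b.2.2.2.1 < 15 ∧ b.2.2.2.2.2.2.1 < 15 ∧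
  0 < b.2.2.1 + b.2.2.2.2.2.1 + b.2.2.2.2.2.2.2.2 ∧ F P b (1, 0) = F P b (0, 0) ∧ F P b (0, 1) = F P b (0, 0) ∧ F P b (0, 0) ≤ 0

instance (P : Fin 6 → ℤ × ℤ) (b : Pat) : Decidable (Val P b) := by unfold Val; infer_instance

lemma sound {P : Fin 6 → ℤ × ℤ} {x : ℂ} (hx : ∀ e < 15, D (cz (P (I e))) (cz (P (J e))) x ≠ 0)
    {b : Pat} (h : Val P b) : ¬ hit (cd (fun i => cz (P i)) x) b = true := by
  obtain ⟨e1, s1, w1, e2, s2, w2, e3, s3, w3⟩ := b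
  obtain ⟨a1, a2, a3, a4, a5, a6, a7⟩ := h
  have k : ∀ e < 15, ∀ s, (cd (fun i => cz (P i)) x).testBit e = s →
      0 < (sg s : ℝ) * D (cz (P (I e))) (cz (P (J e))) x := fun e he s h => by
    cases s
    · have := (cd_bit (fun i => cz (P i)) x he).not.1 (by simp [h])
      simpa [sg] using (not_lt.1 this).lt_of_ne (hx e he)
    · simpa [sg] using (cd_bit (fun i => cz (P i)) x he).1 h
  have af : ∀ a b : ℤ × ℤ, D (cz a) (cz b) x = Dz a b (0, 0) + (Dz a b (1, 0) - Dz a b (0, 0)) * x.re +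
      (Dz a b (0, 1) - Dz a b (0, 0)) * x.im := fun a b => by
    simp [D, cz, Dz]
    ring
  simp only [hit, Bool.and_eq_true, beq_iff_eq]
  rintro ⟨⟨b1, b2⟩, b3⟩
  have c1 := k _ a1 _ b1
  have c2 := k _ a2 _ b2
  have c3 := k _ a3 _ b3
  have c : ∀ p q r : ℝ, 0 < p → 0 < q → 0 < r → 0 < w1 * p + w2 * q + w3 * r := fun p q r hp hq hr => by
    have a : (0 : ℝ) < w1 + w2 + w3 := by exact_mod_cast a4
    have := mul_pos a (lt_min hp (lt_min hq hr))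
    nlinarith [mul_le_mul_of_nonneg_left (min_le_left p (min q r)) (Nat.cast_nonneg (α := ℝ) w1),
      mul_le_mul_of_nonneg_left ((min_le_right p _).trans (min_le_left q r))
        (Nat.cast_nonneg (α := ℝ) w2), mul_le_mul_of_nonneg_left ((min_le_right p _).trans
          (min_le_right q r)) (Nat.cast_nonneg (α := ℝ) w3)]
  have c0 := c _ _ _ c1 c2 c3
  rw [af, af, af] at c0
  simp only [F] at a5 a6 a7
  have d5 := congrArg (Int.cast (R := ℝ)) a5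
  have d6 := congrArg (Int.cast (R := ℝ)) a6
  have d7 := (Int.cast_le (R := ℝ)).2 a7
  push_cast at d5 d6 d7
  have : (0 : ℝ) < 0 := by linear_combination c0 + d7 + x.re * d5 + x.im * d6
  exact this.false

def Ok (P : Fin 6 → ℤ × ℤ) (p : ℕ × ℕ × Pat) : Prop := Val P p.2.2 ∧ hit p.2.1 p.2.2 = true ∧
  p.1.testBit p.2.2.1 = true ∧ p.1.testBit p.2.2.2.2.2.1 = true ∧
    p.1.testBit p.2.2.2.2.2.2.2.2.1 = true

instance (P : Fin 6 → ℤ × ℤ) (p : ℕ × ℕ × Pat) : Decidable (Ok P p) := by unfold Ok; infer_instance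

def chk (B : List (ℕ × ℕ × Pat)) (N : List ℕ) (n : ℕ) : Bool :=
  B.any (fun p => Nat.beq (Nat.land n p.1) p.2.1) || (List.finRange 20).all (fun t => !mem n t) ||
    N.any fun c => (List.finRange 20).all fun t => mem n t == mem c t

theorem hex (P : Fin 6 → ℤ × ℤ) (Q : List (ℤ × ℤ)) (N : List ℕ) (W : List (List ℤ))
    (B : List (ℕ × ℕ × Pat))
    (hm : 2 ≤ N.length) (h1 : ∀ t, 0 < Dz (P (I (Te t).1)) (P (J (Te t).1)) (P (J (Te t).2.1)))
    (h2 : ∀ k : Fin N.length, ∀ e < 15, Dz (P (I e)) (P (J e)) (Q.getD k 0) ≠ 0 ∧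
      (N.get k).testBit e = decide (0 < Dz (P (I e)) (P (J e)) (Q.getD k 0)))
    (h3 : ∀ b ∈ B, Ok P b) (h4 : (List.range 32768).all (chk B N) = true)
    (h5 : ∀ k j : Fin N.length, if j = k then
      ∑ t, (if mem (N.get j) t then (W.getD k []).getD t 0 else 0) = 0
      else 0 < ∑ t, (if mem (N.get j) t then (W.getD k []).getD t 0 else 0)) :
    ∃ T : Face (K fun i => cz (P i)), IsTop T ∧ {G | G ⋖ T}.ncard = N.length := by
  have h1' : ∀ t, 0 < D (cz (P (I (Te t).1))) (cz (P (J (Te t).1))) (cz (P (J (Te t).2.1))) :=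
    fun t => by rw [D_cz]; exact_mod_cast h1 t
  refine geo hm (Tr fun i => cz (P i)) (fun t => (toFinite _).isCompact_convexHull ℝ)
    (fun k => mem (N.get k)) (fun k => cz (Q.getD k 0)) (fun k => ?_) ?_ _ h5 ?_
  · have : ∀ᶠ x in 𝓝 (cz (Q.getD k 0)), ∀ e ∈ Finset.range 15,
        0 < D (cz (P (I e))) (cz (P (J e))) x * Dz (P (I e)) (P (J e)) (Q.getD k 0) :=
      (eventually_all_finset _).2 fun e he => continuous_const.continuousAt.eventually_lt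
        (by unfold D; fun_prop) (by
          rw [D_cz]
          exact mul_self_pos.2 (by exact_mod_cast (h2 k e (Finset.mem_range.1 he)).1))
    filter_upwards [this] with x hx t
    rw [mem_cd (fun e he h => by simpa [h] using hx e (Finset.mem_range.2 he)) t (h1' t)]
    have k : ∀ e < 15, (cd (fun i => cz (P i)) x).testBit e = (N.get k).testBit e := fun e he => by
      rw [(h2 k e he).2, Bool.eq_iff_iff, cd_bit _ _ he, decide_eq_true_iff,
        ← Int.cast_pos (R := ℝ)]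
      exact pos_iff_pos_of_mul_pos (hx e (Finset.mem_range.2 he))
    obtain ⟨a1, a2, a3, -⟩ := Te_ok t
    rw [mem, mem, k _ a1, k _ a2, k _ a3]
  · have : ∀ᵐ x, ∀ e < 15, D (cz (P (I e))) (cz (P (J e))) x ≠ 0 := ae_all_iff.2 fun e =>
      (em _).elim (fun he : e < 15 => (ae_ne (a := cz (P (I e))) (b := cz (P (J e))) fun h =>
        (h2 ⟨0, by omega⟩ e he).1 (by
          rw [← Int.cast_eq_zero (α := ℝ), ← D_cz, h]; simp [D])).mono fun _ h _ => h)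
        fun he => .of_forall fun _ h => (he h).elim
    filter_upwards [this] with x hx
    have a := List.all_eq_true.1 h4 (cd (fun i => cz (P i)) x)
      (List.mem_range.2 (Nat.ofBits_lt_two_pow _))
    simp only [chk, Bool.or_eq_true, List.any_eq_true, List.all_eq_true, List.mem_finRange,
      true_imp_iff, beq_iff_eq, Bool.not_eq_true', ← Bool.not_eq_true] at a
    rcases a with (⟨b, a1, a2⟩ | a) | ⟨c, a1, a2⟩
    · obtain ⟨b1, b2, b3, b4, b5⟩ := h3 b a1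
      rw [← Nat.eq_of_beq_eq_true a2, Nat.land_eq, hit, Nat.testBit_and, Nat.testBit_and,
        Nat.testBit_and, b3, b4, b5, Bool.and_true, Bool.and_true, Bool.and_true] at b2
      exact (sound hx b1 b2).elim
    · exact Or.inl fun t h => a t ((mem_cd hx t (h1' t)).1 h)
    · obtain ⟨k, rfl⟩ := List.get_of_mem a1
      exact Or.inr ⟨k, fun t => by rw [mem_cd hx t (h1' t), a2]⟩
  · have : {m | ∃ i j k, i < j ∧ j < k ∧ m = tri (cz (P i)) (cz (P j)) (cz (P k))} =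
        range fun t => fun A : {A : Set ℂ // MeasurableSet A} =>
          volume.real (A.1 ∩ Tr (fun i => cz (P i)) t) := by
      ext μ
      constructor
      · rintro ⟨i, j, k, a1, a2, rfl⟩
        obtain ⟨t, rfl, rfl, rfl⟩ := Te_surj i j k a1 a2
        exact ⟨t, rfl⟩
      · rintro ⟨t, rfl⟩
        exact ⟨_, _, _, (Te_ok t).2.2.2.2.2.2.1, (Te_ok t).2.2.2.2.2.2.2, rfl⟩
    rw [K, this]

end Pool.Agent.H.MP_41af23_an
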