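import Pool.Agent.H.MP_41af23_an.B

set_option autoImplicit false

open Set MeasureTheory Filter Topology

namespace Pool.Agent.H.MP_41af23_an

def P1 : Fin 6 → ℤ × ℤ := ![(60, 0), (30, 60), (-30, 60), (-60, 0), (-30, -60), (30, -60)]

def Q1 : List (ℤ × ℤ) := [(-28, -59), (1, -40), (-59, -1), (-58, -1), (16, -31), (-29, -57),
  (-29, -20), (-59, 1), (-29, 21), (-29, 59), (31, -57), (-29, -59), (-14, -30), (1, -1), (31,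
  -19), (-58, 1), (-29, 1), (-14, 29), (1, 1), (31, 1), (-28, 59), (1, 40), (16, 30), (31, 20)]

def W1 : List (List ℤ) := [[1, 0, 0, 0, 1, 0, 0, 1, 1, 0],
  [1, 0, 0, 0, 1, 0, 1, 2, -1, 1],
  [1, 0, 0, 0, 1, 1, -1, 0, 1, 1],
  [1, 0, 0, 0, 1, 1, 0, 1, -1, 2],
  [1, 0, 0, 1, 1, 1, -1, 1, 0, 1],
  [1, 0, 1, -1, 2, -1, 0, 1, 1, 1],
  [1, 0, 1, -1, 2, -1, 1, 2, -1, 2],
  [1, 1, -1, 0, 0, 1, 0, 1, 0, 1],
  [1, 1, -1, 0, 1, -1, 1, 3, 0, 1],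
  [1, 1, 0, 0, 1, 0, -1, 1, 1, 1],
  [1, 0, 1, -1, 1, 0, 0, 1, 0, 1],
  [1, 1, -1, 0, 1, 0, 0, 1, 1, 1],
  [1, 1, -1, 0, 1, 0, 1, 2, -1, 2],
  [1, 0, 0, 1, 2, 0, -1, 1, 0, 2],
  [1, 0, 1, -1, 2, 0, -1, 1, 0, 3],
  [2, -1, 0, 0, 1, 1, 0, 1, 0, 1],
  [2, -1, 0, 0, 2, -1, 1, 2, 0, 1],
  [2, -1, 1, 0, 2, 0, -1, 1, 0, 2],
  [2, 0, -1, 1, 1, 0, 0, 2, 0, 1],
  [2, 0, 0, -1, 1, 0, 0, 1, 1, 1],
  [0, 1, 0, 0, 1, 0, 0, 1, 0, 1],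
  [1, -1, 1, 0, 2, 0, 0, 1, 0, 1],
  [1, 0, -1, 1, 1, 0, 1, 2, 0, 1],
  [1, 0, 0, -1, 1, 0, 1, 1, 0, 1]]

def B1 : List (ℕ × ℕ × Pat) := [⟨19, 2, 0, false, 2, 1, true, 1, 4, false, 1⟩,
  ⟨25, 17, 0, true, 1, 3, false, 1, 4, true, 2⟩,
  ⟨13, 9, 0, true, 1, 2, false, 1, 3, true, 1⟩,
  ⟨22, 4, 1, false, 1, 2, true, 1, 4, false, 1⟩,
  ⟨273, 16, 0, false, 1, 4, true, 1, 8, false, 1⟩,
  ⟨2305, 256, 0, false, 2, 8, true, 0, 11, false, 1⟩,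
  ⟨37, 5, 0, true, 0, 2, true, 1, 5, false, 2⟩,
  ⟨16404, 0, 2, false, 1, 4, false, 0, 14, false, 2⟩,
  ⟨416, 288, 5, true, 1, 7, false, 1, 8, true, 1⟩,
  ⟨224, 160, 5, true, 2, 6, false, 2, 7, true, 1⟩,
  ⟨26624, 18432, 11, true, 1, 13, false, 2, 14, true, 2⟩,
  ⟨8768, 8256, 6, true, 2, 9, false, 3, 13, true, 1⟩,
  ⟨3584, 2560, 9, true, 2, 10, false, 2, 11, true, 1⟩,
  ⟨21504, 17408, 10, true, 1, 12, false, 2, 14, true, 1⟩,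
  ⟨2562, 512, 1, false, 1, 9, true, 1, 11, false, 1⟩,
  ⟨12800, 4096, 9, false, 1, 12, true, 2, 13, false, 1⟩,
  ⟨290, 258, 1, true, 2, 5, false, 3, 8, true, 1⟩,
  ⟨328, 8, 3, true, 1, 6, false, 1, 8, false, 0⟩,
  ⟨17536, 16512, 7, true, 1, 10, false, 1, 14, true, 1⟩,
  ⟨17416, 1024, 3, false, 2, 10, true, 1, 14, false, 3⟩,
  ⟨1160, 1032, 3, true, 2, 7, false, 3, 10, true, 2⟩,
  ⟨6176, 2080, 5, true, 0, 11, true, 1, 12, false, 2⟩,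
  ⟨26624, 8192, 11, false, 1, 13, true, 2, 14, false, 2⟩,
  ⟨2320, 256, 4, false, 2, 8, true, 2, 11, false, 1⟩,
  ⟨546, 514, 1, true, 1, 5, false, 2, 9, true, 1⟩,
  ⟨4164, 4100, 2, true, 1, 6, false, 1, 12, true, 1⟩,
  ⟨546, 32, 1, false, 1, 5, true, 2, 9, false, 1⟩,
  ⟨16520, 16392, 3, true, 2, 7, false, 1, 14, true, 2⟩,
  ⟨416, 128, 5, false, 1, 7, true, 1, 8, false, 1⟩,
  ⟨289, 257, 0, true, 2, 5, false, 1, 8, true, 1⟩,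
  ⟨8260, 64, 2, false, 3, 6, true, 2, 13, false, 2⟩,
  ⟨21504, 4096, 10, false, 1, 12, true, 2, 14, false, 1⟩,
  ⟨7, 5, 0, true, 2, 1, false, 2, 2, true, 1⟩,
  ⟨25, 8, 0, false, 1, 3, true, 1, 4, false, 2⟩,
  ⟨193, 64, 0, false, 1, 6, true, 1, 7, false, 1⟩,
  ⟨2562, 2050, 1, true, 1, 9, false, 1, 11, true, 1⟩,
  ⟨4672, 512, 6, false, 1, 9, true, 2, 12, false, 1⟩,
  ⟨18448, 2048, 4, false, 2, 11, true, 1, 14, false, 2⟩,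
  ⟨18448, 16400, 4, true, 2, 11, false, 1, 14, true, 2⟩,
  ⟨3584, 1024, 9, false, 2, 10, true, 2, 11, false, 1⟩,
  ⟨7, 2, 0, false, 2, 1, true, 2, 2, false, 1⟩,
  ⟨13, 4, 0, false, 1, 2, true, 1, 3, false, 1⟩,
  ⟨2320, 2064, 4, true, 2, 8, false, 2, 11, true, 1⟩,
  ⟨289, 32, 0, false, 2, 5, true, 1, 8, false, 1⟩,
  ⟨8708, 512, 2, false, 1, 9, true, 1, 13, false, 1⟩,
  ⟨12292, 8196, 2, true, 1, 12, false, 2, 13, true, 2⟩,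
  ⟨1160, 128, 3, false, 2, 7, true, 3, 10, false, 2⟩,
  ⟨97, 65, 0, true, 1, 5, false, 2, 6, true, 1⟩,
  ⟨4164, 64, 2, false, 1, 6, true, 1, 12, false, 1⟩,
  ⟨2180, 128, 2, false, 1, 7, true, 1, 11, false, 1⟩,
  ⟨2180, 2052, 2, true, 1, 7, false, 1, 11, true, 1⟩]

def N1 : List ℕ := [22255, 30447, 21095, 29287, 32495, 22119, 30311, 29219, 30243, 32291,
  32751, 22247, 30439, 32487, 32743, 29283, 30307, 32355, 32483, 32739, 32289, 32353, 32481,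
  32737]

lemma c1_1 : ∀ t, 0 < Dz (P1 (I (Te t).1)) (P1 (J (Te t).1)) (P1 (J (Te t).2.1)) := by
  decide +kernel

lemma c2_1 : ∀ k : Fin N1.length, ∀ e < 15, Dz (P1 (I e)) (P1 (J e)) (Q1.getD k 0) ≠ 0 ∧
    (N1.get k).testBit e = decide (0 < Dz (P1 (I e)) (P1 (J e)) (Q1.getD k 0)) := by
  decide +kernel

lemma c3_1 : ∀ b ∈ B1, Ok P1 b := by decide +kernel

lemma c4_1 : (List.range 32768).all (chk B1 N1) = true := by decide +kernel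

lemma c5_1 : ∀ k j : Fin N1.length, if j = k then
    ∑ t, (if mem (N1.get j) t then (W1.getD k []).getD t 0 else 0) = 0
    else 0 < ∑ t, (if mem (N1.get j) t then (W1.getD k []).getD t 0 else 0) := by
  decide +kernel

lemma hex1 : ∃ T : Face (K fun i => cz (P1 i)), IsTop T ∧ {G | G ⋖ T}.ncard = N1.length :=
  hex P1 Q1 N1 W1 B1 (by decide) c1_1 c2_1 c3_1 c4_1 c5_1

end Pool.Agent.H.MP_41af23_an
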