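import Pool.Agent.H.MP_41af23_an.B

set_option autoImplicit false

open Set MeasureTheory Filter Topology

namespace Pool.Agent.H.MP_41af23_an

def P2 : Fin 6 → ℤ × ℤ := ![(60, 30), (30, 60), (-30, 60), (-60, 0), (-30, -60), (30, -60)]

def Q2 : List (ℤ × ℤ) := [(-28, -59), (-5, -36), (-59, -1), (-59, 0), (11, -21), (-29, -57),
  (-29, -20), (-6, 13), (-59, 1), (-29, 21), (-29, 59), (31, -56), (-28, -57), (-14, -30), (1,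
  -1), (31, 2), (-58, 1), (-29, 8), (-14, 29), (10, 18), (31, 23), (-26, 59), (11, 47), (22, 43),
  (31, 40)]

def W2 : List (List ℤ) := [[1, 0, 0, 0, 1, 0, 0, 1, 1, 0],
  [1, 0, 0, 0, 1, 0, 1, 2, -1, 1],
  [1, 0, 0, 0, 1, 1, -1, 0, 1, 1],
  [1, 0, 0, 0, 1, 1, 0, 1, -1, 2],
  [1, 0, 0, 1, 1, 1, -1, 1, 0, 1],
  [1, 0, 1, -1, 2, -1, 0, 1, 1, 1],
  [1, 0, 1, -1, 2, -1, 1, 2, -1, 2],
  [1, 0, 1, 0, 2, 0, -1, 1, 0, 2],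
  [1, 1, -1, 0, 0, 1, 0, 1, 0, 1],
  [1, 1, -1, 0, 1, -1, 1, 3, 0, 1],
  [1, 1, 0, 0, 1, 0, -1, 1, 1, 1],
  [1, 0, 1, -1, 1, 0, 0, 1, 0, 1],
  [1, 1, -1, 0, 1, 0, 0, 1, 1, 1],
  [1, 1, -1, 0, 1, 0, 1, 2, -1, 2],
  [1, 1, -1, 1, 1, 1, -1, 1, 0, 2],
  [1, 1, 0, -1, 1, 0, 0, 1, 0, 2],
  [2, -1, 0, 0, 1, 1, 0, 1, 0, 1],
  [2, -1, 0, 0, 2, -1, 1, 2, 0, 1],
  [2, -1, 1, 0, 2, 0, -1, 1, 1, 1],
  [2, 0, -1, 1, 1, 0, 0, 2, 0, 1],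
  [2, 0, 0, -1, 1, 0, 0, 1, 1, 1],
  [0, 1, 0, 0, 1, 0, 0, 1, 0, 1],
  [1, -1, 1, 0, 2, 0, 0, 1, 0, 1],
  [1, 0, -1, 1, 1, 0, 1, 2, 0, 1],
  [1, 0, 0, -1, 1, 0, 1, 1, 0, 1]]

def B2 : List (ℕ × ℕ × Pat) := [⟨25, 17, 0, true, 3, 3, false, 2, 4, true, 3⟩,
  ⟨19, 2, 0, false, 5, 1, true, 2, 4, false, 1⟩,
  ⟨13, 9, 0, true, 9, 2, false, 6, 3, true, 5⟩,
  ⟨22, 4, 1, false, 11, 2, true, 10, 4, false, 7⟩,
  ⟨273, 16, 0, false, 1, 4, true, 1, 8, false, 1⟩,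
  ⟨2305, 256, 0, false, 4, 8, true, 1, 11, false, 2⟩,
  ⟨37, 5, 0, true, 2, 2, true, 2, 5, false, 5⟩,
  ⟨416, 288, 5, true, 1, 7, false, 1, 8, true, 1⟩,
  ⟨224, 160, 5, true, 2, 6, false, 2, 7, true, 1⟩,
  ⟨10244, 2048, 2, false, 8, 11, true, 11, 13, false, 18⟩,
  ⟨24592, 8192, 4, false, 4, 13, true, 6, 14, false, 11⟩,
  ⟨704, 192, 6, true, 0, 7, true, 1, 9, false, 2⟩,
  ⟨148, 20, 2, true, 2, 4, true, 14, 7, false, 11⟩,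
  ⟨4612, 512, 2, false, 4, 9, true, 9, 12, false, 7⟩,
  ⟨5248, 4224, 7, true, 1, 10, false, 2, 12, true, 2⟩,
  ⟨12292, 4096, 2, false, 4, 12, true, 11, 13, false, 9⟩,
  ⟨21504, 17408, 10, true, 1, 12, false, 2, 14, true, 1⟩,
  ⟨224, 64, 5, false, 2, 6, true, 2, 7, false, 1⟩,
  ⟨3104, 2080, 5, true, 1, 10, false, 1, 11, true, 1⟩,
  ⟨17416, 1024, 3, false, 4, 10, true, 3, 14, false, 6⟩,
  ⟨16520, 16392, 3, true, 4, 7, false, 3, 14, true, 3⟩,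
  ⟨2082, 32, 1, false, 4, 5, true, 5, 11, false, 1⟩,
  ⟨289, 257, 0, true, 4, 5, false, 2, 8, true, 1⟩,
  ⟨416, 128, 5, false, 1, 7, true, 1, 8, false, 1⟩,
  ⟨4164, 4100, 2, true, 8, 6, false, 9, 12, true, 5⟩,
  ⟨2082, 2050, 1, true, 4, 5, false, 5, 11, true, 1⟩,
  ⟨10496, 2048, 8, false, 2, 11, true, 3, 13, false, 2⟩,
  ⟨12292, 8196, 2, true, 4, 12, false, 11, 13, true, 9⟩,
  ⟨24832, 16640, 8, true, 1, 13, false, 2, 14, true, 3⟩,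
  ⟨1568, 1056, 5, true, 1, 9, false, 2, 10, true, 1⟩,
  ⟨1568, 512, 5, false, 1, 9, true, 2, 10, false, 1⟩,
  ⟨2320, 256, 4, false, 4, 8, true, 5, 11, false, 2⟩,
  ⟨7, 5, 0, true, 7, 1, false, 5, 2, true, 2⟩,
  ⟨25, 8, 0, false, 3, 3, true, 2, 4, false, 3⟩,
  ⟨3104, 1024, 5, false, 1, 10, true, 1, 11, false, 1⟩,
  ⟨4672, 4160, 6, true, 1, 9, false, 2, 12, true, 1⟩,
  ⟨580, 516, 2, true, 4, 6, false, 7, 9, true, 5⟩,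
  ⟨8464, 8208, 4, true, 12, 8, false, 11, 13, true, 4⟩,
  ⟨7, 2, 0, false, 7, 1, true, 5, 2, false, 2⟩,
  ⟨13, 4, 0, false, 9, 2, true, 6, 3, false, 5⟩,
  ⟨289, 32, 0, false, 4, 5, true, 2, 8, false, 1⟩,
  ⟨580, 64, 2, false, 4, 6, true, 7, 9, false, 5⟩,
  ⟨18448, 16400, 4, true, 4, 11, false, 3, 14, true, 5⟩,
  ⟨20608, 4096, 7, false, 1, 12, true, 2, 14, false, 2⟩,
  ⟨1160, 128, 3, false, 4, 7, true, 6, 10, false, 3⟩,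
  ⟨8464, 256, 4, false, 12, 8, true, 11, 13, false, 4⟩,
  ⟨2180, 128, 2, false, 8, 7, true, 9, 11, false, 7⟩,
  ⟨1160, 1032, 3, true, 4, 7, false, 6, 10, true, 3⟩,
  ⟨17416, 16392, 3, true, 4, 10, false, 3, 14, true, 6⟩,
  ⟨10256, 8208, 4, true, 8, 11, false, 11, 13, true, 10⟩]

def N2 : List ℕ := [22255, 30447, 21095, 29287, 32495, 22119, 30311, 32359, 29219, 30243,
  32291, 32751, 22247, 30439, 32487, 32743, 29283, 30307, 32355, 32483, 32739, 32289, 32353,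
  32481, 32737]

lemma c1_2 : ∀ t, 0 < Dz (P2 (I (Te t).1)) (P2 (J (Te t).1)) (P2 (J (Te t).2.1)) := by
  decide +kernel

lemma c2_2 : ∀ k : Fin N2.length, ∀ e < 15, Dz (P2 (I e)) (P2 (J e)) (Q2.getD k 0) ≠ 0 ∧
    (N2.get k).testBit e = decide (0 < Dz (P2 (I e)) (P2 (J e)) (Q2.getD k 0)) := by
  decide +kernel

lemma c3_2 : ∀ b ∈ B2, Ok P2 b := by decide +kernel

lemma c4_2 : (List.range 32768).all (chk B2 N2) = true := by decide +kernel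

lemma c5_2 : ∀ k j : Fin N2.length, if j = k then
    ∑ t, (if mem (N2.get j) t then (W2.getD k []).getD t 0 else 0) = 0
    else 0 < ∑ t, (if mem (N2.get j) t then (W2.getD k []).getD t 0 else 0) := by
  decide +kernel

lemma hex2 : ∃ T : Face (K fun i => cz (P2 i)), IsTop T ∧ {G | G ⋖ T}.ncard = N2.length :=
  hex P2 Q2 N2 W2 B2 (by decide) c1_2 c2_2 c3_2 c4_2 c5_2

end Pool.Agent.H.MP_41af23_an
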