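import Pool.Agent.H.MP_41af23_an.C
import Pool.Agent.H.MP_41af23_an.D

set_option autoImplicit false

open Set MeasureTheory Filter Topology

namespace Pool.Agent.H.MP_41af23_an

theorem main : ∃ z w : Fin 6 → ℂ, z.Injective ∧ w.Injective ∧
    (∀ i j k, i < j → j < k → 0 < D (z i) (z j) (z k) ∧ 0 < D (w i) (w j) (w k)) ∧
    (∀ i j k, SignType.sign (D (z i) (z j) (z k)) = SignType.sign (D (w i) (w j) (w k))) ∧
    IsEmpty (Face (K z) ≃o Face (K w)) := by
  have hi : cz.Injective := fun a b h => Prod.ext (by simpa [cz] using congrArg Complex.re h)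
    (by simpa [cz] using congrArg Complex.im h)
  refine ⟨fun i => cz (P1 i), fun i => cz (P2 i), hi.comp (by decide), hi.comp (by decide),
    fun i j k => ?_, fun i j k => ?_, ⟨fun e => ?_⟩⟩
  · simp only [D_cz, Int.cast_pos]
    revert i j k
    decide +kernel
  · simp only [D_cz, sign_intCast]
    revert i j k
    decide +kernel
  · obtain ⟨S, a1, a2⟩ := hex1
    obtain ⟨T, b1, b2⟩ := hex2
    rw [iso e a1 b1, a2] at b2
    exact absurd b2 (by decide)

end Pool.Agent.H.MP_41af23_an
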